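import Pool.Agent.W279.TriS.Defs

set_option autoImplicit false

/-!
# A large invariant forces closeness, uniformly for bounded forms
(after the real case in `Pool.Agent.W279.TriR.Frame` and `Pool.Agent.W279.TriR.Two`)
-/

namespace Pool.Agent.W125.SA.Close

open Pool.Agent.W279.Tri Pool.Agent.W279.TriS Filter Topology

variable {L : Type*} [NontriviallyNormedField L]

lemma continuous_G' {X : Type*} [TopologicalSpace X] {γ : X → Fin 3 → Fin 3 → L}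
    {f h : X → Fin 2 → L} (hγ : Continuous γ)
    (hf : Continuous f) (hh : Continuous h) : Continuous fun x => G (γ x) (f x) (h x) := by
  unfold G
  refine continuous_finsetSum _ fun j _ => continuous_finsetSum _ fun k _ => ?_
  have h1 : Continuous fun x => γ x j k := by fun_prop
  exact h1.mul (((continuous_mon j).comp hf).mul ((continuous_mon k).comp hh))

lemma continuous_Pv' {X : Type*} [TopologicalSpace X] {γ : X → Fin 3 → Fin 3 → L}
    {f h : X → Fin 2 → L} (e : Fin 2 → L) (hγ : Continuous γ)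
    (hf : Continuous f) (hh : Continuous h) : Continuous fun x => Pv (γ x) (f x) (h x) e := by
  unfold Pv
  exact ((continuous_G' hγ hf (hh.add continuous_const)).sub (continuous_G' hγ hf hh)).sub
    (continuous_G' hγ hf continuous_const)

/-- upper bound, uniform for bounded forms -/
lemma upper' [ProperSpace L] (B : ℝ) :
    ∃ C : ℝ, 0 ≤ C ∧ ∀ (g : Fin 3 → Fin 3 → L), ‖g‖ ≤ B → ∀ u v v' : Fin 2 → L,
      ‖u‖ = 1 → ‖v‖ = 1 → ‖v'‖ = 1 → G g u v = 0 → ‖G g u v'‖ ≤ C * ‖br v' v‖ := by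
  have key : ∀ e : Fin 2 → L, ∃ C : ℝ, ∀ (g : Fin 3 → Fin 3 → L), ‖g‖ ≤ B →
      ∀ u v v' : Fin 2 → L, ‖u‖ = 1 → ‖v‖ = 1 → ‖v'‖ = 1 →
      ‖br e v' * Pv g u v e + br v' v * G g u e‖ ≤ C := by
    intro e
    have hc : Continuous fun p : (Fin 3 → Fin 3 → L) × (Fin 2 → L) × (Fin 2 → L) × (Fin 2 → L) =>
        br e p.2.2.2 * Pv p.1 p.2.1 p.2.2.1 e + br p.2.2.2 p.2.2.1 * G p.1 p.2.1 e :=
      ((continuous_br continuous_const (by fun_prop)).mul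
        (continuous_Pv' e (by fun_prop) (by fun_prop) (by fun_prop))).add
        ((continuous_br (by fun_prop) (by fun_prop)).mul
          (continuous_G' (by fun_prop) (by fun_prop) continuous_const))
    obtain ⟨C, hC⟩ := ((isCompact_closedBall (0 : Fin 3 → Fin 3 → L) B).prod
      ((isCompact_sphere (0 : Fin 2 → L) 1).prod
      ((isCompact_sphere (0 : Fin 2 → L) 1).prod (isCompact_sphere (0 : Fin 2 → L) 1)))).bddAbove_image
      hc.norm.continuousOn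
    refine ⟨C, fun g hg u v v' hu hv hv' => hC ⟨(g, u, v, v'), ?_, rfl⟩⟩
    simp [hu, hv, hv', hg]
  obtain ⟨C0, h0⟩ := key ![1, 0]
  obtain ⟨C1, h1⟩ := key ![0, 1]
  refine ⟨max 0 (max C0 C1), le_max_left _ _, fun g hg u v v' hu hv hv' hG => ?_⟩
  rcases exists_coord hv with h | h
  · have h3 := G_identity g u v v' ![0, 1]
    have e1 : br ![0, 1] v = -v 0 := by simp [br]
    rw [hG, mul_zero, zero_add] at h3
    have h4 := congrArg norm h3
    rw [norm_mul, norm_pow, e1, norm_neg, h, one_pow, one_mul] at h4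
    rw [h4]
    have e2 : br ![0, 1] v' * br v' v * Pv g u v ![0, 1] + br v' v ^ 2 * G g u ![0, 1] =
        (br ![0, 1] v' * Pv g u v ![0, 1] + br v' v * G g u ![0, 1]) * br v' v := by ring
    rw [e2, norm_mul]
    exact mul_le_mul_of_nonneg_right ((h1 g hg u v v' hu hv hv').trans
      ((le_max_right _ _).trans (le_max_right _ _))) (norm_nonneg _)
  · have h3 := G_identity g u v v' ![1, 0]
    have e1 : br ![1, 0] v = v 1 := by simp [br]
    rw [hG, mul_zero, zero_add] at h3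
    have h4 := congrArg norm h3
    rw [norm_mul, norm_pow, e1, h, one_pow, one_mul] at h4
    rw [h4]
    have e2 : br ![1, 0] v' * br v' v * Pv g u v ![1, 0] + br v' v ^ 2 * G g u ![1, 0] =
        (br ![1, 0] v' * Pv g u v ![1, 0] + br v' v * G g u ![1, 0]) * br v' v := by ring
    rw [e2, norm_mul]
    exact mul_le_mul_of_nonneg_right ((h0 g hg u v v' hu hv hv').trans
      ((le_max_left _ _).trans (le_max_right _ _))) (norm_nonneg _)

lemma norm_swap_le {g : Fin 3 → Fin 3 → L} {B : ℝ} (hB : ‖g‖ ≤ B) :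
    ‖(fun j k => g k j : Fin 3 → Fin 3 → L)‖ ≤ B := by
  have hB0 : 0 ≤ B := (norm_nonneg _).trans hB
  rw [pi_norm_le_iff_of_nonneg hB0]
  intro j
  rw [pi_norm_le_iff_of_nonneg hB0]
  intro k
  exact ((norm_le_pi_norm (g k) j).trans (norm_le_pi_norm g k)).trans hB

/-- upper bound for the invariant -/
lemma Rr_upper [ProperSpace L] (B : ℝ) : ∃ C : ℝ, 0 < C ∧ ∀ (g : Fin 3 → Fin 3 → L), ‖g‖ ≤ B →
    ∀ u v u' v' : Fin 2 → L,
    u ≠ 0 → v ≠ 0 → u' ≠ 0 → v' ≠ 0 → G g u v = 0 → G g u' v' = 0 → br u u' ≠ 0 → br v v' ≠ 0 →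
    ∀ ε : ℝ, 0 < ε → (C / ε) ^ 2 ≤ ‖Rr g u v u' v'‖ →
      ‖br u u'‖ ≤ ε * (‖u‖ * ‖u'‖) ∧ ‖br v v'‖ ≤ ε * (‖v‖ * ‖v'‖) := by
  obtain ⟨C1, hC1, hup⟩ := upper' (L := L) B
  set C := C1 + 1 with hC
  have hCpos : 0 < C := by
    rw [hC]; linarith
  have hCC1 : C1 ≤ C := by rw [hC]; linarith
  refine ⟨C, hCpos, ?_⟩
  intro g hg
  have hup1 := hup g hg
  have hup2 := hup (fun j k => g k j) (norm_swap_le hg)
  -- normalised vectors
  have key : ∀ u v u' v' : Fin 2 → L, ‖u‖ = 1 → ‖v‖ = 1 → ‖u'‖ = 1 → ‖v'‖ = 1 → G g u v = 0 →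
      G g u' v' = 0 → br u u' ≠ 0 → br v v' ≠ 0 → ∀ ε : ℝ, 0 < ε →
      (C / ε) ^ 2 ≤ ‖Rr g u v u' v'‖ → ‖br u u'‖ ≤ ε ∧ ‖br v v'‖ ≤ ε := by
    intro u v u' v' hu hv hu' hv' h h' hbu hbv ε hε hlarge
    have hbU' : 0 < ‖br u u'‖ := norm_pos_iff.2 hbu
    have hbV' : 0 < ‖br v v'‖ := norm_pos_iff.2 hbv
    have a1 : ‖G g u v'‖ ≤ C * ‖br v v'‖ := by
      have := hup1 u v v' hu hv hv' h
      rw [br_swap, norm_neg] at this
      exact this.trans (by gcongr)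
    have a2 : ‖G g u' v‖ ≤ C * ‖br v v'‖ := by
      have := hup1 u' v' v hu' hv' hv h'
      exact this.trans (by gcongr)
    have a3 : ‖G g u v'‖ ≤ C * ‖br u u'‖ := by
      have := hup2 v' u' u hv' hu' hu (by rw [← G_swap]; exact h')
      rw [← G_swap] at this
      exact this.trans (by gcongr)
    have a4 : ‖G g u' v‖ ≤ C * ‖br u u'‖ := by
      have := hup2 v u u' hv hu hu' (by rw [← G_swap]; exact h)
      rw [← G_swap, br_swap, norm_neg] at this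
      exact this.trans (by gcongr)
    have b1 : ‖Rr g u v u' v'‖ ≤ (C / ‖br u u'‖) ^ 2 := by
      unfold Rr
      rw [norm_div, norm_mul, norm_mul, norm_pow, norm_pow, div_pow, div_le_div_iff₀
        (by positivity) (by positivity)]
      calc ‖G g u v'‖ * ‖G g u' v‖ * ‖br u u'‖ ^ 2
          ≤ (C * ‖br v v'‖) * (C * ‖br v v'‖) * ‖br u u'‖ ^ 2 := by gcongr
        _ = _ := by ring
    have b2 : ‖Rr g u v u' v'‖ ≤ (C / ‖br v v'‖) ^ 2 := by
      unfold Rr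
      rw [norm_div, norm_mul, norm_mul, norm_pow, norm_pow, div_pow, div_le_div_iff₀
        (by positivity) (by positivity)]
      calc ‖G g u v'‖ * ‖G g u' v‖ * ‖br v v'‖ ^ 2
          ≤ (C * ‖br u u'‖) * (C * ‖br u u'‖) * ‖br v v'‖ ^ 2 := by gcongr
        _ = _ := by ring
    have fin : ∀ t : ℝ, 0 < t → (C / ε) ^ 2 ≤ (C / t) ^ 2 → t ≤ ε := by
      intro t ht h
      have h1 : C / ε ≤ C / t :=
        (pow_le_pow_iff_left₀ (by positivity) (by positivity) (by norm_num)).1 h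
      exact (div_le_div_iff_of_pos_left hCpos hε ht).1 h1
    exact ⟨fin _ hbU' (hlarge.trans b1), fin _ hbV' (hlarge.trans b2)⟩
  intro u v u' v' hu hv hu' hv' h h' hbu hbv ε hε hlarge
  obtain ⟨a, ha0, ha⟩ := exists_normalize hu
  obtain ⟨b, hb0, hb⟩ := exists_normalize hv
  obtain ⟨a', ha0', ha'⟩ := exists_normalize hu'
  obtain ⟨b', hb0', hb'⟩ := exists_normalize hv'
  have k := key (a • u) (b • v) (a' • u') (b' • v') ha hb ha' hb'
    (by rw [G_smul_left, G_smul_right, h]; ring) (by rw [G_smul_left, G_smul_right, h']; ring)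
    (by rw [br_smul_left, br_smul_right]; exact mul_ne_zero ha0 (mul_ne_zero ha0' hbu))
    (by rw [br_smul_left, br_smul_right]; exact mul_ne_zero hb0 (mul_ne_zero hb0' hbv)) ε hε
    (by rw [Rr_smul g _ _ _ _ ha0 hb0 ha0' hb0']; exact hlarge)
  have fin : ∀ {x x' : Fin 2 → L} {p p' : L}, x ≠ 0 → x' ≠ 0 → ‖p • x‖ = 1 → ‖p' • x'‖ = 1 →
      ‖br (p • x) (p' • x')‖ ≤ ε → ‖br x x'‖ ≤ ε * (‖x‖ * ‖x'‖) := by
    intro x x' p p' hx hx' hp hp' hle
    rw [br_smul_left, br_smul_right, norm_mul, norm_mul] at hle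
    rw [norm_smul] at hp hp'
    have p1 : 0 < ‖x‖ := norm_pos_iff.2 hx
    have p2 : 0 < ‖x'‖ := norm_pos_iff.2 hx'
    calc ‖br x x'‖ = (‖p‖ * (‖p'‖ * ‖br x x'‖)) * (‖x‖ * ‖x'‖) := by
          have : (‖p‖ * (‖p'‖ * ‖br x x'‖)) * (‖x‖ * ‖x'‖) =
            (‖p‖ * ‖x‖) * (‖p'‖ * ‖x'‖) * ‖br x x'‖ := by ring
          rw [this, hp, hp']; ring
      _ ≤ ε * (‖x‖ * ‖x'‖) := by gcongr
  exact ⟨fin hu hu' ha ha' k.1, fin hv hv' hb hb' k.2⟩

/-- closeness in the coordinate -/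
lemma coord_close {ξ ξ' : Fin 2 → L} (hξ : br ξ ξ' ≠ 0) :
    ∃ C : ℝ, 0 < C ∧ ∀ (u w : Fin 2 → L) (t₀ : L), At ξ ξ' u t₀ → ‖t₀‖ ≤ 1 → w ≠ 0 →
      ∀ ε : ℝ, 0 < ε → C * ε ≤ 1 → ‖br u w‖ ≤ ε * (‖u‖ * ‖w‖) →
        ∃ t, At ξ ξ' w t ∧ ‖t - t₀‖ ≤ C * ε := by
  set β := br ξ ξ' with hβ
  have hβ0 : 0 < ‖β‖ := norm_pos_iff.2 hξ
  set S : ℝ := ‖ξ‖ + ‖ξ'‖ with hS
  have hS0 : 0 ≤ S := by positivity
  set C1 : ℝ := S / ‖β‖ with hC1
  have hC10 : 0 ≤ C1 := by positivity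
  refine ⟨2 * C1 * S + 2 * C1 * ‖ξ'‖ + 1, by positivity, ?_⟩
  rintro u w t₀ ⟨a, ha, rfl⟩ ht₀ hw ε hε hCε hbr
  rw [br_smul_left, norm_mul, norm_smul] at hbr
  have ha' : 0 < ‖a‖ := norm_pos_iff.2 ha
  have hbr' : ‖br (ξ + t₀ • ξ') w‖ ≤ ε * (‖ξ + t₀ • ξ'‖ * ‖w‖) := by
    have : ‖a‖ * ‖br (ξ + t₀ • ξ') w‖ ≤ ‖a‖ * (ε * (‖ξ + t₀ • ξ'‖ * ‖w‖)) := by
      calc _ ≤ _ := hbr
        _ = _ := by ring
    exact le_of_mul_le_mul_left this ha'
  -- the coordinates of `w`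
  set p : L := br w ξ' / β with hp
  set q : L := br ξ w / β with hq
  have hw' : w = p • ξ + q • ξ' := by
    funext i
    simp only [Pi.add_apply, Pi.smul_apply, smul_eq_mul, hp, hq]
    rw [div_mul_eq_mul_div, div_mul_eq_mul_div, ← add_div, eq_div_iff hξ]
    fin_cases i
    · simp only [br, hβ, Fin.zero_eta]; ring
    · simp only [br, hβ, Fin.mk_one]; ring
  have hbw : br (ξ + t₀ • ξ') w = (q - t₀ * p) * β := by
    conv_lhs => rw [hw']
    simp only [br, hβ, Pi.add_apply, Pi.smul_apply, smul_eq_mul]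
    ring
  have hnorm : ‖ξ + t₀ • ξ'‖ ≤ S := by
    refine (norm_add_le _ _).trans ?_
    rw [norm_smul, hS]
    have : ‖t₀‖ * ‖ξ'‖ ≤ 1 * ‖ξ'‖ := by gcongr
    linarith
  have h1 : ‖q - t₀ * p‖ ≤ ε * C1 * ‖w‖ := by
    rw [hbw, norm_mul] at hbr'
    have h2 : ‖q - t₀ * p‖ * ‖β‖ ≤ ε * (S * ‖w‖) := hbr'.trans (by gcongr)
    rw [← le_div_iff₀ hβ0] at h2
    calc _ ≤ _ := h2
      _ = _ := by rw [hC1]; ring
  have h2 : ‖w‖ ≤ ‖p‖ * S + ε * C1 * ‖ξ'‖ * ‖w‖ := by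
    have e1 : w = p • (ξ + t₀ • ξ') + (q - t₀ * p) • ξ' := by
      rw [hw']
      funext i
      simp only [Pi.add_apply, Pi.smul_apply, smul_eq_mul]
      ring
    calc ‖w‖ = ‖p • (ξ + t₀ • ξ') + (q - t₀ * p) • ξ'‖ := by rw [← e1]
      _ ≤ ‖p‖ * ‖ξ + t₀ • ξ'‖ + ‖q - t₀ * p‖ * ‖ξ'‖ := by
          refine (norm_add_le _ _).trans ?_
          rw [norm_smul, norm_smul]
      _ ≤ ‖p‖ * S + (ε * C1 * ‖w‖) * ‖ξ'‖ := by gcongr
      _ = _ := by ring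
  have hw0 : 0 < ‖w‖ := norm_pos_iff.2 hw
  have h3 : 2 * C1 * ‖ξ'‖ * ε ≤ 1 := by
    have : 0 ≤ 2 * C1 * S * ε := by positivity
    nlinarith
  have h4 : ‖w‖ ≤ 2 * S * ‖p‖ := by
    have : ε * C1 * ‖ξ'‖ * ‖w‖ ≤ 1 / 2 * ‖w‖ := by
      apply mul_le_mul_of_nonneg_right _ hw0.le
      linarith
    linarith
  have hp0 : p ≠ 0 := by
    rintro h0
    rw [h0, norm_zero, mul_zero] at h4
    linarith
  have hpa : 0 < ‖p‖ := norm_pos_iff.2 hp0
  refine ⟨q / p, ⟨p, hp0, ?_⟩, ?_⟩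
  · rw [smul_add, smul_smul, mul_div_cancel₀ _ hp0]
    exact hw'
  · have e : q / p - t₀ = (q - t₀ * p) / p := by field_simp
    rw [e, norm_div, div_le_iff₀ hpa]
    calc ‖q - t₀ * p‖ ≤ ε * C1 * ‖w‖ := h1
      _ ≤ ε * C1 * (2 * S * ‖p‖) := by gcongr
      _ = 2 * C1 * S * ε * ‖p‖ := by ring
      _ ≤ (2 * C1 * S + 2 * C1 * ‖ξ'‖ + 1) * ε * ‖p‖ := by
          gcongr
          have : 0 ≤ 2 * C1 * ‖ξ'‖ := by positivity
          linarith

theorem main : StmtClose := by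
  intro L _ _ B₀ ξ ξ' η η' hξ hη
  obtain ⟨C, hC, hup⟩ := Rr_upper (L := L) B₀
  obtain ⟨A, hA, hA'⟩ := coord_close hξ
  obtain ⟨B, hB, hB'⟩ := coord_close hη
  refine ⟨C * (A + B), by positivity, ?_⟩
  intro g hg u v u' v' hu hv hu' hv' h h' hbu hbv t s hat has ht hs ε hε hε1 hR
  set δ := ε / (A + B) with hδ
  have hδ0 : 0 < δ := by positivity
  have e1 : C * (A + B) / ε = C / δ := by rw [hδ]; field_simp
  rw [e1] at hR
  obtain ⟨h1, h2⟩ := hup g hg u v u' v' hu hv hu' hv' h h' hbu hbv δ hδ0 hR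
  have hAδ : A * δ ≤ ε := by
    rw [hδ, mul_div_assoc', div_le_iff₀ (by positivity)]
    nlinarith
  have hBδ : B * δ ≤ ε := by
    rw [hδ, mul_div_assoc', div_le_iff₀ (by positivity)]
    nlinarith
  obtain ⟨t', ht', ht''⟩ := hA' _ _ _ hat ht hu' δ hδ0 (hAδ.trans hε1) h1
  obtain ⟨s', hs', hs''⟩ := hB' _ _ _ has hs hv' δ hδ0 (hBδ.trans hε1) h2
  exact ⟨t', s', ht', hs', ht''.trans hAδ, hs''.trans hBδ⟩

end Pool.Agent.W125.SA.Close
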